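import Pool.Agent.Lib.MP_16db06_lc.Main

/-! # MP_16db06_lc : generic subshifts over the Hilbert cube are hyperfinite for all solvable groups
and for all groups with a finite normal series whose factors have locally finite asymptotic
dimension. -/

set_option autoImplicit false

namespace Pool.Agent.Results.MP_16db06_lc.GenericSolvable

open HypSub

universe u

/-- Let `Γ` be a countable group which is solvable or, more generally, has a finite series of normal
subgroups all of whose factors have locally finite asymptotic dimension. Then comeagerly many
subshifts of `(I^ℕ)^Γ` have a hyperfinite orbit equivalence relation. -/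
theorem result (Γ : Type u) [Group Γ] [Countable Γ]
    (h : Group.IsSolvable Γ ∨ ∃ n, Tower n Γ) :
    {Y : Subshift Γ | Hyperfinite (orbitRel Y)} ∈ residual (Subshift Γ) := by
  rcases h with hs | ⟨n, hn⟩
  · exact generic_of_solvable Γ hs
  · exact generic_of_tower Γ n hn

end Pool.Agent.Results.MP_16db06_lc.GenericSolvable
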